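import Mathlib

namespace Pool.Agent.Results.MP_a80f1a_gt.Octa
open MeasureTheory Set Filter Topology Pointwise

/-- difference quotient `(λ(S ⊕ δK) - λ(S)) / δ` defining the `K`-surface area of `S`. -/
noncomputable def quot {d : ℕ} (K S : Set (Fin d → ℝ)) (δ : ℝ) : ℝ :=
  ((volume (S + δ • K)).toReal - (volume S).toReal) / δ

def B (c : Fin 3 → ℝ) (t : ℝ) : Set (Fin 3 → ℝ) :=
  {x | |x 0 - c 0| + |x 1 - c 1| + |x 2 - c 2| ≤ t}

lemma B_closed (c t) : IsClosed (B c t) := isClosed_le (by fun_prop) continuous_const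
lemma B_meas (c t) : MeasurableSet (B c t) := (B_closed c t).measurableSet

lemma smul_B {t : ℝ} (ht : 0 < t) : t • B 0 1 = B 0 t := by
  ext x
  rw [mem_smul_set_iff_inv_smul_mem₀ ht.ne']
  simp only [B, mem_setOf_eq, Pi.smul_apply, smul_eq_mul, Pi.zero_apply, sub_zero, abs_mul,
    abs_of_pos (inv_pos.2 ht)]
  rw [← mul_add, ← mul_add, inv_mul_le_iff₀ ht, mul_one]

lemma B_bdd (c t) : Bornology.IsBounded (B c t) := by
  refine (Metric.isBounded_closedBall (x := c) (r := |t|)).subset fun x hx => ?_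
  rw [Metric.mem_closedBall, dist_pi_le_iff (abs_nonneg t)]
  have h : |x 0 - c 0| + |x 1 - c 1| + |x 2 - c 2| ≤ t := hx
  have := abs_nonneg (x 0 - c 0); have := abs_nonneg (x 1 - c 1); have := abs_nonneg (x 2 - c 2)
  have := le_abs_self t
  intro i; fin_cases i <;> simp [Real.dist_eq] <;> linarith

lemma B_fin (c t) : volume (B c t) ≠ ⊤ := (B_bdd c t).measure_lt_top.ne

lemma B_conv : Convex ℝ (B 0 1) := by
  intro x hx y hy a b ha hb hab
  simp only [B, mem_setOf_eq, Pi.zero_apply, sub_zero, Pi.add_apply, Pi.smul_apply,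
    smul_eq_mul] at *
  have h : ∀ i, |a * x i + b * y i| ≤ a * |x i| + b * |y i| := fun i => by
    refine (abs_add_le _ _).trans ?_
    rw [abs_mul, abs_mul, abs_of_nonneg ha, abs_of_nonneg hb]
  nlinarith [h 0, h 1, h 2]

noncomputable def v : ℝ := volume.real (B 0 1)

lemma vol_B (c) {t : ℝ} (ht : 0 < t) : volume.real (B c t) = t ^ 3 * v := by
  have : B c t = (fun x => x + -c) ⁻¹' B 0 t := by
    ext x; simp [B, sub_eq_add_neg]
  rw [this, Measure.real, measure_preimage_add_right, ← smul_B ht,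
    Measure.addHaar_smul_of_nonneg _ ht.le]
  simp [v, Measure.real, ENNReal.toReal_ofReal (pow_pos ht 3).le]

lemma v_pos : 0 < v := by
  have h : Metric.ball (0 : Fin 3 → ℝ) (1/3) ⊆ B 0 1 := fun x hx => by
    rw [Metric.mem_ball, dist_pi_lt_iff (by norm_num)] at hx
    have h0 := hx 0; have h1 := hx 1; have h2 := hx 2
    simp only [Real.dist_eq] at h0 h1 h2
    simp only [B, mem_setOf_eq]
    linarith
  exact ENNReal.toReal_pos ((Metric.measure_ball_pos _ _ (by norm_num)).trans_le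
    (measure_mono h)).ne' (B_fin _ _)

def C : Fin 6 → Fin 3 → ℝ := ![![1,0,0], ![-1,0,0], ![0,1,0], ![0,-1,0], ![0,0,1], ![0,0,-1]]

def M : Fin 6 → Matrix (Fin 3) (Fin 3) ℝ :=
  ![!![1,-1,0;0,0,1;0,1,0], !![1,1,0;0,0,1;0,1,0], !![1,0,-1;0,1,0;0,0,1], !![1,0,1;0,1,0;0,0,1],
    !![0,1,-1;1,0,0;0,0,1], !![0,1,1;1,0,0;0,0,1]]

def E1 (δ : ℝ) (j : Fin 6) : Set (Fin 3 → ℝ) :=
  Matrix.toLin' (M j) ⁻¹' Icc ![-δ, -δ, -3] ![δ, δ, 3]

lemma det_M (j) : |((M j).det)⁻¹| = 1 := by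
  fin_cases j <;> simp [M, Matrix.det_fin_three]

lemma vol_E1 {δ : ℝ} (j) : volume (E1 δ j) = volume (Icc ![-δ, -δ, -3] ![δ, δ, 3]) := by
  have h : LinearMap.det (Matrix.toLin' (M j)) ≠ 0 := by
    rw [LinearMap.det_toLin']; intro h; have := det_M j; simp [h] at this
  rw [E1, Measure.addHaar_preimage_linearMap _ h, LinearMap.det_toLin', det_M]; simp

def E (δ : ℝ) : Set (Fin 3 → ℝ) := ⋃ j ∈ (Finset.univ : Finset (Fin 6)), E1 δ j

lemma E_meas (δ) : MeasurableSet (E δ) :=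
  Finset.measurableSet_biUnion _ fun j _ =>
    (isClosed_Icc.preimage (LinearMap.continuous_of_finiteDimensional _)).measurableSet

lemma E_fin (δ) : volume (E δ) ≠ ⊤ :=
  measure_biUnion_ne_top (Finset.finite_toSet _) fun j _ => by
    rw [vol_E1]; exact isCompact_Icc.measure_lt_top.ne

lemma vol_E {δ : ℝ} (h : 0 < δ) : volume.real (E δ) ≤ 144 * δ ^ 2 := by
  refine (measureReal_biUnion_finset_le _ _).trans ?_
  have : ∀ j, volume.real (E1 δ j) = 24 * δ ^ 2 := fun j => by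
    rw [Measure.real, vol_E1, Real.volume_Icc_pi_toReal]
    · simp [Fin.prod_univ_three]; ring
    · intro i; fin_cases i <;> simp <;> linarith
  simp [this]; linarith

lemma memE {δ : ℝ} {x : Fin 3 → ℝ} (j : Fin 6)
    (h : ∀ i, ![-δ, -δ, -3] i ≤ (M j).mulVec x i ∧ (M j).mulVec x i ≤ ![δ, δ, 3] i) : x ∈ E δ :=
  mem_biUnion (Finset.mem_coe.2 (Finset.mem_univ j)) ⟨fun i => (h i).1, fun i => (h i).2⟩

lemma memE' {δ : ℝ} {x : Fin 3 → ℝ}
    (h : (|x 2| ≤ δ ∧ |x 1| ≤ 3 ∧ (|x 0 - x 1| ≤ δ ∨ |x 0 + x 1| ≤ δ)) ∨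
      (|x 1| ≤ δ ∧ |x 2| ≤ 3 ∧ (|x 0 - x 2| ≤ δ ∨ |x 0 + x 2| ≤ δ)) ∨
      (|x 0| ≤ δ ∧ |x 2| ≤ 3 ∧ (|x 1 - x 2| ≤ δ ∨ |x 1 + x 2| ≤ δ))) : x ∈ E δ := by
  simp only [abs_le] at h
  rcases h with ⟨h1, h2, h3 | h3⟩ | ⟨h1, h2, h3 | h3⟩ | ⟨h1, h2, h3 | h3⟩
  on_goal 1 => apply memE 0
  on_goal 2 => apply memE 1
  on_goal 3 => apply memE 2
  on_goal 4 => apply memE 3
  on_goal 5 => apply memE 4
  on_goal 6 => apply memE 5
  all_goals
    intro i; fin_cases i <;>
      simp [M, Matrix.mulVec, dotProduct, Fin.sum_univ_three] <;> constructor <;> linarith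

lemma facts (y : ℝ) : y ≤ |y| ∧ -y ≤ |y| ∧ y - 1 ≤ |y - 1| ∧ -(y - 1) ≤ |y - 1| ∧
    y + 1 ≤ |y + 1| ∧ -(y + 1) ≤ |y + 1| ∧ 2 * |y| ≤ |y - 1| + |y + 1| := by
  refine ⟨le_abs_self _, neg_le_abs _, le_abs_self _, neg_le_abs _, le_abs_self _,
    neg_le_abs _, ?_⟩
  have := abs_add_le (y - 1) (y + 1)
  rwa [show y - 1 + (y + 1) = 2 * y by ring, abs_mul, abs_two] at this

lemma key {a b c δ : ℝ} (h1 : δ ≤ 1)
    (hi : |a - 1| + |b| + |c| ≤ 1 + δ ∨ |a + 1| + |b| + |c| ≤ 1 + δ)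
    (hj : |a| + |b - 1| + |c| ≤ 1 + δ ∨ |a| + |b + 1| + |c| ≤ 1 + δ) :
    |c| ≤ δ ∧ |b| ≤ 3 ∧ (|a - b| ≤ δ ∨ |a + b| ≤ δ) := by
  obtain ⟨a1, a2, a3, a4, a5, a6, -⟩ := facts a
  obtain ⟨b1, b2, b3, b4, b5, b6, -⟩ := facts b
  have := abs_nonneg c
  rcases hi with hi | hi <;> rcases hj with hj | hj <;> refine ⟨by linarith, by linarith, ?_⟩
  · left; rw [abs_le]; constructor <;> linarith
  · right; rw [abs_le]; constructor <;> linarith
  · right; rw [abs_le]; constructor <;> linarith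
  · left; rw [abs_le]; constructor <;> linarith

lemma overlap {δ : ℝ} (h1 : δ ≤ 1) {x} {i j : Fin 6} (hij : i ≠ j) (hi : x ∈ B (C i) (1 + δ))
    (hj : x ∈ B (C j) (1 + δ)) : x ∈ B 0 (1 + δ) ∨ x ∈ E δ := by
  by_cases h0 : x ∈ B 0 (1 + δ)
  · exact Or.inl h0
  refine Or.inr (memE' ?_)
  simp only [B, mem_setOf_eq] at hi hj h0
  have f0 := (facts (x 0)).2.2.2.2.2.2
  have f1 := (facts (x 1)).2.2.2.2.2.2
  have f2 := (facts (x 2)).2.2.2.2.2.2
  fin_cases i <;> fin_cases j <;> simp [C] at hij hi hj h0 <;>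
    first
    | (exfalso; linarith)
    | exact Or.inl (key h1 (by first | (left; linarith) | (right; linarith))
        (by first | (left; linarith) | (right; linarith)))
    | exact Or.inr (Or.inl (key h1 (by first | (left; linarith) | (right; linarith))
        (by first | (left; linarith) | (right; linarith))))
    | exact Or.inr (Or.inr (key h1 (by first | (left; linarith) | (right; linarith))
        (by first | (left; linarith) | (right; linarith))))

lemma inter (i) {t : ℝ} {x} (hi : x ∈ B (C i) t) (h0 : x ∈ B 0 t) :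
    x ∈ B ((1/2 : ℝ) • C i) (t - 1/2) := by
  simp only [B, mem_setOf_eq] at *
  fin_cases i <;> simp [C] at hi h0 ⊢ <;> grind

lemma half (i) {x} (h : x ∈ B ((1/2 : ℝ) • C i) (1/2)) : x ∈ B (C i) 1 ∧ x ∈ B 0 1 := by
  simp only [B, mem_setOf_eq] at *
  fin_cases i <;> simp [C] at h ⊢ <;> grind

def U (t : ℝ) : Set (Fin 3 → ℝ) := B 0 t ∪ ⋃ i ∈ (Finset.univ : Finset (Fin 6)), B (C i) t

lemma U_fin (t) : volume (U t) ≠ ⊤ :=
  measure_union_ne_top (B_fin _ _)
    (measure_biUnion_ne_top (Finset.finite_toSet _) fun j _ => B_fin _ _)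

lemma U_one : volume.real (U 1) ≤ v + 6 * (v - v / 8) := by
  have h : U 1 ⊆ B 0 1 ∪ ⋃ i ∈ (Finset.univ : Finset (Fin 6)),
      (B (C i) 1 \ B ((1/2 : ℝ) • C i) (1/2)) := by
    intro x hx
    by_cases h0 : x ∈ B 0 1
    · exact Or.inl h0
    rcases hx with hx | hx
    · exact Or.inl hx
    simp only [mem_iUnion] at hx
    obtain ⟨i, hi, hx⟩ := hx
    exact Or.inr (mem_biUnion hi ⟨hx, fun h => h0 (half i h).2⟩)
  refine (measureReal_mono h (measure_union_ne_top (B_fin _ _)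
    (measure_biUnion_ne_top (Finset.finite_toSet _) fun j _ =>
      measure_ne_top_of_subset diff_subset (B_fin _ _)))).trans ?_
  refine (measureReal_union_le _ _).trans (add_le_add le_rfl ?_)
  refine (measureReal_biUnion_finset_le _ _).trans ?_
  have : ∀ i, volume.real (B (C i) 1 \ B ((1/2 : ℝ) • C i) (1/2)) = v - v / 8 := fun i => by
    rw [measureReal_sdiff (fun x h => (half i h).1) (B_meas _ _) (B_fin _ _), vol_B _ one_pos,
      vol_B _ (by norm_num)]; ring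
  simp only [this]; simp; linarith

lemma U_ge {δ : ℝ} (h0 : 0 < δ) (h1 : δ ≤ 1) : (1 + δ) ^ 3 * v +
    6 * ((1 + δ) ^ 3 * v - (1 + δ - 1/2) ^ 3 * v - 144 * δ ^ 2) ≤ volume.real (U (1 + δ)) := by
  set P : Fin 6 → Set (Fin 3 → ℝ) := fun i => B (C i) (1 + δ) \ (B 0 (1 + δ) ∪ E δ) with hP
  have hm : ∀ i, MeasurableSet (P i) := fun i => (B_meas _ _).diff ((B_meas _ _).union (E_meas _))
  have hf : ∀ i, volume (P i) ≠ ⊤ := fun i => measure_ne_top_of_subset diff_subset (B_fin _ _)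
  have h : B 0 (1 + δ) ∪ (⋃ i ∈ (Finset.univ : Finset (Fin 6)), P i) ⊆ U (1 + δ) :=
    union_subset_union_right _ (iUnion₂_mono fun i _ => diff_subset)
  refine le_trans ?_ (measureReal_mono h (U_fin _))
  rw [measureReal_union _ (Finset.measurableSet_biUnion _ fun i _ => hm i) (B_fin _ _)
    (measure_biUnion_ne_top (Finset.finite_toSet _) fun j _ => hf j),
    measureReal_biUnion_finset _ (fun i _ => hm i) (fun i _ => hf i), vol_B _ (by linarith)]
  · have : ∀ i, (1 + δ) ^ 3 * v - (1 + δ - 1/2) ^ 3 * v - 144 * δ ^ 2 ≤ volume.real (P i) := by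
      intro i
      have hs : B (C i) (1 + δ) ⊆ (P i ∪ B ((1/2 : ℝ) • C i) (1 + δ - 1/2)) ∪ E δ := by
        intro x hx
        by_cases a : x ∈ B 0 (1 + δ)
        · exact Or.inl (Or.inr (inter i hx a))
        by_cases b : x ∈ E δ
        · exact Or.inr b
        exact Or.inl (Or.inl ⟨hx, fun h => h.elim a b⟩)
      have h2 := measureReal_mono hs
        (measure_union_ne_top (measure_union_ne_top (hf i) (B_fin _ _)) (E_fin _))
      have h3 := measureReal_union_le (μ := volume) (P i ∪ B ((1/2 : ℝ) • C i) (1 + δ - 1/2)) (E δ)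
      have h4 := measureReal_union_le (μ := volume) (P i) (B ((1/2 : ℝ) • C i) (1 + δ - 1/2))
      rw [vol_B _ (by linarith)] at h2 h4
      linarith [vol_E h0]
    have := Finset.sum_le_sum fun i (_ : i ∈ (Finset.univ : Finset (Fin 6))) => this i
    simp only [Finset.sum_const, Finset.card_univ, Fintype.card_fin, nsmul_eq_mul] at this
    push_cast at this
    linarith
  · intro i _ j _ hij
    exact disjoint_left.2 fun x hi hj => hi.2 (overlap h1 hij hi.1 hj.1)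
  · simp only [disjoint_iUnion_right]
    exact fun i _ => disjoint_left.2 fun x h0 hi => hi.2 (Or.inl h0)

noncomputable def A : Finset (Fin 3 → ℝ) := by classical exact insert 0 (Finset.univ.image C)

lemma A_add {t : ℝ} (ht : 0 < t) : (A : Set (Fin 3 → ℝ)) + t • B 0 1 = U t := by
  rw [smul_B ht]
  ext x
  simp only [Set.mem_add, A, U, Finset.coe_insert, Finset.coe_image, Finset.coe_univ, image_univ,
    mem_insert_iff, mem_range, mem_union, mem_iUnion, Finset.mem_univ, exists_prop, true_and]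
  constructor
  · rintro ⟨a, rfl | ⟨i, rfl⟩, y, hy, rfl⟩
    · left; simpa using hy
    · right; exact ⟨i, by simpa [B] using hy⟩
  · rintro (h | ⟨i, h⟩)
    · exact ⟨0, Or.inl rfl, x, h, by simp⟩
    · exact ⟨C i, Or.inr ⟨i, rfl⟩, x - C i, by simpa [B] using h, by simp⟩

theorem result : ∃ (d : ℕ) (K : Set (Fin d → ℝ)) (r : ℝ) (A : Finset (Fin d → ℝ)) (a b : ℝ),
    1 ≤ d ∧ IsCompact K ∧ Convex ℝ K ∧ (∀ x ∈ K, -x ∈ K) ∧ 0 < volume K ∧ 0 < r ∧
    0 ∈ A ∧ (∀ x ∈ A, x ∈ r • K) ∧ a < b ∧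
    Tendsto (quot K ((2 * r) • K)) (𝓝[>] 0) (𝓝 a) ∧
    ∀ᶠ δ in 𝓝[>] 0, b ≤ quot K ((A : Set (Fin d → ℝ)) + r • K) δ := by
  have hv := v_pos
  refine ⟨3, B 0 1, 1, A, 12 * v, 13 * v, by norm_num,
    Metric.isCompact_of_isClosed_isBounded (B_closed _ _) (B_bdd _ _), B_conv,
    fun x hx => by simpa [B] using hx,
    pos_iff_ne_zero.2 fun h => by simp [v, Measure.real, h] at hv, one_pos, by simp [A], ?_,
    by linarith, ?_, ?_⟩
  · intro x hx
    simp only [A, Finset.mem_insert, Finset.mem_image, Finset.mem_univ, true_and] at hx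
    rw [one_smul]
    rcases hx with rfl | ⟨i, rfl⟩
    · simp [B]
    · fin_cases i <;> simp [B, C]
  · have h : Tendsto (fun δ : ℝ => (12 + 6 * δ + δ ^ 2) * v) (𝓝[>] 0) (𝓝 (12 * v)) := by
      have : Continuous fun δ : ℝ => (12 + 6 * δ + δ ^ 2) * v := by fun_prop
      simpa using (this.tendsto 0).mono_left (nhdsWithin_le_nhds (s := Ioi 0))
    refine h.congr' ?_
    filter_upwards [self_mem_nhdsWithin] with δ (hδ : 0 < δ)
    rw [quot, ← B_conv.add_smul (by norm_num) hδ.le, smul_B (by linarith), smul_B (by norm_num)]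
    have h1 := vol_B 0 (t := 2 * 1 + δ) (by linarith)
    have h2 := vol_B 0 (t := 2 * 1) (by norm_num)
    simp only [Measure.real] at h1 h2
    rw [h1, h2]; field_simp; ring
  · have hm : 0 < min 1 (v / 864) := lt_min one_pos (by positivity)
    filter_upwards [Ioo_mem_nhdsGT hm] with δ ⟨hδ, h1⟩
    rw [lt_min_iff, lt_div_iff₀ (by norm_num)] at h1
    rw [quot, add_assoc, ← B_conv.add_smul (by norm_num) hδ.le, A_add (by linarith),
      A_add one_pos, le_div_iff₀ hδ]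
    have h2 := U_ge hδ h1.1.le
    have h3 := U_one
    simp only [Measure.real] at h2 h3
    have h4 : 0 < δ * v := by positivity
    have h5 : 0 < δ ^ 2 * v := by positivity
    have h6 : 0 < δ ^ 3 * v := by positivity
    have h7 : δ * (δ * 864) < δ * v := mul_lt_mul_of_pos_left h1.2 hδ
    nlinarith

end Pool.Agent.Results.MP_a80f1a_gt.Octa
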